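import Pool.Agent.H353R2.P4

set_option autoImplicit false

/-! # Mean squares of partial sums and Dirichlet convolution -/

open Filter Topology Set MeasureTheory
open H353

namespace Pool.Agent.Q32.Tw

/-- the partial sums of `b` -/
noncomputable def SS (b : ArithmeticFunction ℝ) (u : ℝ) : ℝ := ∑ n ∈ Finset.Icc 1 ⌊u⌋₊, b n

/-- the mean square `∫_1^X (S(u)/u)² du` -/
noncomputable def II (b : ArithmeticFunction ℝ) (X : ℝ) : ℝ := ∫ u in (1:ℝ)..X, (SS b u / u) ^ 2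

theorem SS_meas (b : ArithmeticFunction ℝ) : Measurable (SS b) := by
  have : SS b = (fun n : ℕ => ∑ k ∈ Finset.Icc 1 n, b k) ∘ (fun t : ℝ => ⌊t⌋₊) := rfl
  rw [this]
  exact (measurable_from_nat).comp Nat.measurable_floor

theorem SS_zero (b : ArithmeticFunction ℝ) {u : ℝ} (h : u < 1) : SS b u = 0 := by
  unfold SS
  rw [Nat.floor_eq_zero.2 h]
  simp

theorem SS_bd (b : ArithmeticFunction ℝ) {u X : ℝ} (h : u ≤ X) :
    |SS b u| ≤ ∑ n ∈ Finset.Icc 1 ⌊X⌋₊, |b n| := by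
  unfold SS
  refine (Finset.abs_sum_le_sum_abs _ _).trans ?_
  refine Finset.sum_le_sum_of_subset_of_nonneg ?_ fun _ _ _ => abs_nonneg _
  exact Finset.Icc_subset_Icc le_rfl (Nat.floor_mono h)

theorem ii (b : ArithmeticFunction ℝ) {p q : ℝ} (hp : 0 < p) (hpq : p ≤ q) (c : ℝ) (hc : 0 < c) :
    IntervalIntegrable (fun u => (SS b (u * c) / u) ^ 2) volume p q := by
  rw [intervalIntegrable_iff_integrableOn_Ioc_of_le hpq]
  have hm : Measurable (fun u : ℝ => (SS b (u * c) / u) ^ 2) :=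
    (((SS_meas b).comp (measurable_id.mul_const c)).div measurable_id).pow_const 2
  refine Measure.integrableOn_of_bounded (M := ((∑ n ∈ Finset.Icc 1 ⌊q * c⌋₊, |b n|) / p) ^ 2)
    (measure_Ioc_lt_top.ne) hm.aestronglyMeasurable ?_
  refine (ae_restrict_mem measurableSet_Ioc).mono fun u hu => ?_
  rw [Real.norm_eq_abs, abs_pow]
  refine pow_le_pow_left₀ (abs_nonneg _) ?_ 2
  rw [abs_div, abs_of_pos (hp.trans hu.1)]
  refine div_le_div₀ (Finset.sum_nonneg fun _ _ => abs_nonneg _) (SS_bd b ?_) hp hu.1.le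
  exact mul_le_mul_of_nonneg_right hu.2 hc.le

theorem II_nonneg (b : ArithmeticFunction ℝ) {X : ℝ} (h : 1 ≤ X) : 0 ≤ II b X :=
  intervalIntegral.integral_nonneg h fun _ _ => sq_nonneg _

theorem ii1 (b : ArithmeticFunction ℝ) {p q : ℝ} (hp : 0 < p) (hpq : p ≤ q) :
    IntervalIntegrable (fun u => (SS b u / u) ^ 2) volume p q := by
  have := ii b hp hpq 1 one_pos
  simpa using this

theorem II_mono (b : ArithmeticFunction ℝ) {X Y : ℝ} (h : 1 ≤ X) (h2 : X ≤ Y) : II b X ≤ II b Y := by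
  unfold II
  rw [← intervalIntegral.integral_add_adjacent_intervals (ii1 b one_pos h) (ii1 b (by linarith) h2)]
  have : 0 ≤ ∫ u in X..Y, (SS b u / u) ^ 2 := intervalIntegral.integral_nonneg h2 fun _ _ => sq_nonneg _
  linarith

/-- scaling -/
theorem scale (b : ArithmeticFunction ℝ) {X : ℝ} {n : ℕ} (hn : 1 ≤ n) (hX : (n : ℝ) ≤ X) :
    ∫ u in (1:ℝ)..X, (SS b (u / n) / u) ^ 2 = (1 / n) * II b (X / n) := by
  have hn0 : (0:ℝ) < n := by exact_mod_cast hn
  have hn1 : (1:ℝ) ≤ n := by exact_mod_cast hn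
  have e1 : ∀ u : ℝ, (SS b (u / n) / u) ^ 2 = (1 / n ^ 2) * (fun w : ℝ => (SS b w / w) ^ 2) (u / n) := by
    intro u
    by_cases hu : u = 0
    · subst hu; simp
    · simp only
      field_simp
  simp_rw [e1]
  have e2 := intervalIntegral.integral_comp_div (a := 1) (b := X) (fun w : ℝ => (SS b w / w) ^ 2) hn0.ne'
  rw [intervalIntegral.integral_const_mul, e2, smul_eq_mul]
  have h1 : 1 / (n:ℝ) ≤ 1 := by rw [div_le_one hn0]; exact hn1
  have h2 : 1 ≤ X / n := by rw [one_le_div hn0]; exact hX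
  rw [← intervalIntegral.integral_add_adjacent_intervals (ii1 b (by positivity) h1) (ii1 b one_pos h2)]
  have e3 : ∫ u in (1 / (n:ℝ))..1, (SS b u / u) ^ 2 = 0 := by
    rw [intervalIntegral.integral_of_le h1, integral_Ioc_eq_integral_Ioo]
    rw [setIntegral_congr_fun measurableSet_Ioo (g := fun _ => (0:ℝ)) ?_]
    · simp
    · intro u hu
      simp only
      rw [SS_zero b hu.2]
      simp
  rw [e3, zero_add]
  unfold II
  field_simp

/-- mean squares of convolutions -/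
theorem conv_ms (a b : ArithmeticFunction ℝ) (θ K X : ℝ) (hX : 1 ≤ X)
    (ha : Summable (fun n : ℕ => |a n| / (n : ℝ) ^ θ))
    (hb : ∀ n : ℕ, 1 ≤ n → (n : ℝ) ≤ X → II b (X / n) ≤ K * (n : ℝ) ^ (1 - 2 * θ)) :
    II (a * b) X ≤ (∑' n : ℕ, |a n| / (n : ℝ) ^ θ) ^ 2 * K := by
  set A : ℝ := ∑' n : ℕ, |a n| / (n : ℝ) ^ θ with hA
  have hA0 : 0 ≤ A := tsum_nonneg fun n => by positivity
  set N : ℕ := ⌊X⌋₊ with hN
  have hK : 0 ≤ K := by
    have h1 := hb 1 le_rfl (by simpa using hX)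
    have h2 : 0 ≤ II b (X / (1:ℕ)) := II_nonneg b (by simpa using hX)
    simp only [Nat.cast_one, Real.one_rpow, mul_one] at h1 h2
    linarith
  have hIcc : ∀ N : ℕ, Finset.Icc 1 N = Finset.Ioc 0 N := fun N => by ext; simp [Nat.succ_le_iff]
  have hS : ∀ u ∈ Icc 1 X, SS (a * b) u = ∑ n ∈ Finset.Icc 1 N, a n * SS b (u / n) := by
    intro u hu
    have hu0 : 0 ≤ u := by linarith [hu.1]
    have h1 : SS (a * b) u = ∑ n ∈ Finset.Icc 1 ⌊u⌋₊, a n * SS b (u / n) := by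
      unfold SS
      rw [hIcc, ArithmeticFunction.sum_Ioc_mul_eq_sum_sum]
      refine Finset.sum_congr rfl fun n _ => ?_
      rw [Nat.floor_div_natCast, hIcc]
    rw [h1]
    refine Finset.sum_subset (Finset.Icc_subset_Icc le_rfl (Nat.floor_mono hu.2)) fun n hn hn' => ?_
    rw [Finset.mem_Icc] at hn hn'
    have hn0 : (0:ℝ) < n := by exact_mod_cast hn.1
    have : u < n := by
      by_contra hcon
      push Not at hcon
      exact hn' ⟨hn.1, (Nat.le_floor_iff hu0).2 hcon⟩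
    rw [SS_zero b ((div_lt_one hn0).2 this), mul_zero]
  have hAN : ∑ n ∈ Finset.Icc 1 N, |a n| / (n : ℝ) ^ θ ≤ A :=
    Summable.sum_le_tsum _ (fun n _ => by positivity) ha
  have hpt : ∀ u ∈ Icc 1 X, (SS (a * b) u / u) ^ 2 ≤
      ∑ n ∈ Finset.Icc 1 N, A * |a n| * (n : ℝ) ^ θ * (SS b (u / n) / u) ^ 2 := by
    intro u hu
    have hu0 : 0 < u := by linarith [hu.1]
    rw [hS u hu, div_pow]
    have h1 : (∑ n ∈ Finset.Icc 1 N, a n * SS b (u / n)) ^ 2 ≤
        (∑ n ∈ Finset.Icc 1 N, |a n| / (n : ℝ) ^ θ) *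
          ∑ n ∈ Finset.Icc 1 N, |a n| * (n : ℝ) ^ θ * (SS b (u / n)) ^ 2 := by
      refine Finset.sum_sq_le_sum_mul_sum_of_sq_le_mul _ (fun n _ => by positivity)
        (fun n _ => by positivity) fun n hn => ?_
      rw [Finset.mem_Icc] at hn
      have hn0 : (0:ℝ) < n := by exact_mod_cast hn.1
      have : (n:ℝ) ^ θ ≠ 0 := (Real.rpow_pos_of_pos hn0 _).ne'
      refine le_of_eq ?_
      rw [mul_pow, ← sq_abs (a n)]
      field_simp
    have h2 : (0:ℝ) ≤ ∑ n ∈ Finset.Icc 1 N, |a n| * (n : ℝ) ^ θ * (SS b (u / n)) ^ 2 :=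
      Finset.sum_nonneg fun n _ => by positivity
    have h3 : ∑ n ∈ Finset.Icc 1 N, A * |a n| * (n : ℝ) ^ θ * (SS b (u / n) / u) ^ 2 =
        A * (∑ n ∈ Finset.Icc 1 N, |a n| * (n : ℝ) ^ θ * (SS b (u / n)) ^ 2) / u ^ 2 := by
      rw [Finset.mul_sum, Finset.sum_div]
      refine Finset.sum_congr rfl fun n _ => ?_
      ring
    rw [h3]
    gcongr
    exact h1.trans (mul_le_mul_of_nonneg_right hAN h2)
  have hint : ∀ n : ℕ, 1 ≤ n → IntervalIntegrable (fun u => A * |a n| * (n : ℝ) ^ θ * (SS b (u / n) / u) ^ 2)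
      volume 1 X := by
    intro n hn
    have hn0 : (0:ℝ) < n := by exact_mod_cast hn
    have := ii b one_pos hX (1 / n) (by positivity)
    simp_rw [mul_one_div] at this
    exact this.const_mul _
  have h1 : II (a * b) X ≤ ∫ u in (1:ℝ)..X, ∑ n ∈ Finset.Icc 1 N,
      A * |a n| * (n : ℝ) ^ θ * (SS b (u / n) / u) ^ 2 := by
    refine intervalIntegral.integral_mono_on hX (ii1 _ one_pos hX) ?_ hpt
    have h5 := IntervalIntegrable.sum (Finset.Icc 1 N) fun n hn => hint n (Finset.mem_Icc.1 hn).1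
    have h6 : (fun u => ∑ n ∈ Finset.Icc 1 N, A * |a n| * (n : ℝ) ^ θ * (SS b (u / n) / u) ^ 2) =
        ∑ n ∈ Finset.Icc 1 N, fun u => A * |a n| * (n : ℝ) ^ θ * (SS b (u / n) / u) ^ 2 := by
      ext u
      simp only [Finset.sum_apply]
    rw [h6]
    exact h5
  rw [intervalIntegral.integral_finsetSum fun n hn => hint n (Finset.mem_Icc.1 hn).1] at h1
  refine h1.trans ?_
  have h2 : ∀ n ∈ Finset.Icc 1 N, ∫ u in (1:ℝ)..X, A * |a n| * (n : ℝ) ^ θ * (SS b (u / n) / u) ^ 2 ≤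
      A * K * (|a n| / (n : ℝ) ^ θ) := by
    intro n hn
    rw [Finset.mem_Icc] at hn
    have hn0 : (0:ℝ) < n := by exact_mod_cast hn.1
    have hnX : (n:ℝ) ≤ X := (Nat.le_floor_iff (by linarith)).1 hn.2
    rw [intervalIntegral.integral_const_mul, scale b hn.1 hnX]
    have h3 := hb n hn.1 hnX
    have e : (n:ℝ) ^ (1 - 2 * θ) = n / ((n:ℝ) ^ θ * (n:ℝ) ^ θ) := by
      rw [Real.rpow_sub hn0, Real.rpow_one, two_mul, Real.rpow_add hn0]
    have hp : (0:ℝ) < (n:ℝ) ^ θ := Real.rpow_pos_of_pos hn0 _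
    calc A * |a n| * (n : ℝ) ^ θ * (1 / n * II b (X / n))
        ≤ A * |a n| * (n : ℝ) ^ θ * (1 / n * (K * (n : ℝ) ^ (1 - 2 * θ))) := by gcongr
      _ = A * K * (|a n| / (n : ℝ) ^ θ) := by
          rw [e]
          field_simp
  refine (Finset.sum_le_sum h2).trans ?_
  rw [← Finset.mul_sum]
  calc A * K * ∑ n ∈ Finset.Icc 1 N, |a n| / (n : ℝ) ^ θ ≤ A * K * A := by gcongr
    _ = A ^ 2 * K := by ring

end Pool.Agent.Q32.Tw
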