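import Pool.Agent.Q32.Tw.A

set_option autoImplicit false

/-! # Continuation of a Dirichlet series from the mean square of its partial sums -/

open Filter Topology Set MeasureTheory Complex
open H353

namespace Pool.Agent.Q32.Tw

theorem SS_le {b : ArithmeticFunction ℝ} (hb : ∀ n, |b n| ≤ 1) {u : ℝ} (hu : 0 ≤ u) : |SS b u| ≤ u := by
  refine (SS_bd b le_rfl).trans ((Finset.sum_le_sum fun n _ => hb n).trans ?_)
  rw [Finset.sum_const, Nat.card_Icc, Nat.add_sub_cancel, nsmul_eq_mul, mul_one]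
  exact Nat.floor_le hu

theorem q_bd {b : ArithmeticFunction ℝ} (hb : ∀ n, |b n| ≤ 1) (u : ℝ) : |SS b u / u| ≤ 1 := by
  by_cases h : u < 1
  · rw [SS_zero b h]; simp
  · push Not at h
    have h0 : 0 < u := by linarith
    rw [abs_div, abs_of_pos h0, div_le_one h0]
    exact SS_le hb h0.le

theorem q_int {b : ArithmeticFunction ℝ} (hb : ∀ n, |b n| ≤ 1) (p q : ℝ) :
    IntervalIntegrable (fun u => SS b u / u) volume p q := by
  refine (intervalIntegrable_const (c := (1:ℝ))).mono_fun'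
    ((SS_meas b).div measurable_id).aestronglyMeasurable (ae_of_all _ fun u => ?_)
  exact q_bd hb u

noncomputable def BB (b : ArithmeticFunction ℝ) (x : ℝ) : ℝ := ∫ u in (1:ℝ)..x, SS b u / u

theorem BB_cont {b : ArithmeticFunction ℝ} (hb : ∀ n, |b n| ≤ 1) : Continuous (BB b) :=
  intervalIntegral.continuous_primitive (fun p q => q_int hb p q) 1

theorem BB_le {b : ArithmeticFunction ℝ} (hb : ∀ n, |b n| ≤ 1) {x : ℝ} (hx : 1 ≤ x) : |BB b x| ≤ x := by
  have h := intervalIntegral.norm_integral_le_of_norm_le_const (a := 1) (b := x) (C := 1)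
    (f := fun u => SS b u / u) (fun u _ => q_bd hb u)
  rw [one_mul, abs_of_nonneg (by linarith)] at h
  have : |BB b x| ≤ x - 1 := h
  linarith

theorem BB_le2 {b : ArithmeticFunction ℝ} (hb : ∀ n, |b n| ≤ 1) {δ K : ℝ}
    (hS : ∀ X : ℝ, 1 ≤ X → II b X ≤ K * X ^ δ) {x : ℝ} (hx : 1 ≤ x) :
    |BB b x| ≤ (K + 1) / 2 * x ^ ((1 + δ) / 2) := by
  have hx0 : 0 < x := by linarith
  set l : ℝ := x ^ ((1 - δ) / 2) with hl
  have hl0 : 0 < l := Real.rpow_pos_of_pos hx0 _
  have h1 : |BB b x| ≤ ∫ u in (1:ℝ)..x, |SS b u / u| :=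
    intervalIntegral.abs_integral_le_integral_abs hx
  have h2 : ∫ u in (1:ℝ)..x, |SS b u / u| ≤ ∫ u in (1:ℝ)..x, (l / 2 * (SS b u / u) ^ 2 + 1 / (2 * l)) := by
    refine intervalIntegral.integral_mono_on hx (q_int hb 1 x).abs
      (((ii1 b one_pos hx).const_mul _).add intervalIntegrable_const) fun u _ => ?_
    rw [← sq_abs (SS b u / u)]
    set w := |SS b u / u|
    have : 0 ≤ (l * w - 1) ^ 2 := sq_nonneg _
    have e : l / 2 * w ^ 2 + 1 / (2 * l) - w = (l * w - 1) ^ 2 / (2 * l) := by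
      field_simp
      ring
    have : 0 ≤ (l * w - 1) ^ 2 / (2 * l) := by positivity
    linarith
  rw [intervalIntegral.integral_add ((ii1 b one_pos hx).const_mul _) intervalIntegrable_const,
    intervalIntegral.integral_const_mul, intervalIntegral.integral_const, smul_eq_mul] at h2
  have h3 := hS x hx
  have e1 : l * x ^ δ = x ^ ((1 + δ) / 2) := by
    rw [hl, ← Real.rpow_add hx0]
    congr 1
    ring
  have e2 : x / l = x ^ ((1 + δ) / 2) := by
    rw [hl]
    nth_rewrite 1 [← Real.rpow_one x]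
    rw [← Real.rpow_sub hx0]
    congr 1
    ring
  calc |BB b x| ≤ l / 2 * II b x + (x - 1) * (1 / (2 * l)) := h1.trans h2
    _ ≤ l / 2 * (K * x ^ δ) + x * (1 / (2 * l)) := by gcongr; linarith
    _ = K / 2 * (l * x ^ δ) + 1 / 2 * (x / l) := by field_simp
    _ = _ := by rw [e1, e2]; ring

theorem BB_deriv {b : ArithmeticFunction ℝ} (hb : ∀ n, |b n| ≤ 1) {x : ℝ} (hx : 0 < x) :
    HasDerivWithinAt (BB b) (SS b x / x) (Ioi x) x := by
  have h : HasDerivWithinAt (BB b) (SS b x / x) (Ici x) x := by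
    refine intervalIntegral.integral_hasDerivWithinAt_right (t := Ioi x) (q_int hb 1 x) ?_ ?_
    · exact ((SS_meas b).div measurable_id).stronglyMeasurable.stronglyMeasurableAtFilter
    · have h1 : ContinuousWithinAt (fun u : ℝ => SS b x / u) (Ioi x) x := by
        refine ContinuousAt.continuousWithinAt ?_
        exact continuousAt_const.div continuousAt_id hx.ne'
      refine h1.congr_of_eventuallyEq ?_ rfl
      have h2 : Iio ((⌊x⌋₊ : ℝ) + 1) ∈ 𝓝[>] x :=
        mem_nhdsWithin_of_mem_nhds (Iio_mem_nhds (Nat.lt_floor_add_one x))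
      filter_upwards [h2, self_mem_nhdsWithin] with u hu hu2
      have hu2' : x < u := hu2
      have hu' : u < (⌊x⌋₊ : ℝ) + 1 := hu
      have : ⌊u⌋₊ = ⌊x⌋₊ := by
        rw [Nat.floor_eq_iff (by linarith)]
        exact ⟨(Nat.floor_le hx.le).trans hu2'.le, hu'⟩
      unfold SS
      rw [this]
  exact h.mono Ioi_subset_Ici_self

theorem int_parts {b : ArithmeticFunction ℝ} (hb : ∀ n, |b n| ≤ 1) {s : ℂ} (hs : 1 < s.re) :
    ∫ t in Ioi (1:ℝ), ((SS b t : ℝ) : ℂ) * (t : ℂ) ^ (-(s + 1)) =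
      s * ∫ t in Ioi (1:ℝ), ((BB b t : ℝ) : ℂ) * (t : ℂ) ^ (-(s + 1)) := by
  have hs0 : s ≠ 0 := by rintro rfl; simp at hs; linarith
  have hnorm : ∀ t : ℝ, 1 < t → ‖(t : ℂ) ^ (-(s + 1))‖ = t ^ (-s.re - 1) := by
    intro t ht
    rw [Complex.norm_cpow_eq_rpow_re_of_pos (by linarith)]
    congr 1
    simp
    ring
  have hdom : ∀ (f : ℝ → ℝ), Measurable f → (∀ t, 1 < t → |f t| ≤ t) →
      IntegrableOn (fun t : ℝ => ((f t : ℝ) : ℂ) * (t : ℂ) ^ (-(s + 1))) (Ioi 1) := by
    intro f hf hf1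
    have h0 : IntegrableOn (fun t : ℝ => t ^ (-s.re)) (Ioi 1) :=
      integrableOn_Ioi_rpow_of_lt (by linarith) one_pos
    refine h0.mono' ?_ ((ae_restrict_mem measurableSet_Ioi).mono fun t ht => ?_)
    · refine ((measurable_ofReal.comp hf).aestronglyMeasurable).mul ?_
      refine ContinuousOn.aestronglyMeasurable (fun t ht => ?_) measurableSet_Ioi
      have ht0 : (0:ℝ) < t := lt_trans one_pos ht
      exact (Complex.continuousAt_ofReal_cpow_const t _ (Or.inr ht0.ne')).continuousWithinAt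
    · have ht1 : 1 < t := ht
      rw [norm_mul, hnorm t ht1, Complex.norm_real, Real.norm_eq_abs]
      calc |f t| * t ^ (-s.re - 1) ≤ t * t ^ (-s.re - 1) :=
            mul_le_mul_of_nonneg_right (hf1 t ht1) (by positivity)
        _ = t ^ (-s.re) := by
          nth_rewrite 1 [← Real.rpow_one t]
          rw [← Real.rpow_add (by linarith)]
          congr 1
          ring
  have iS := hdom (SS b) (SS_meas b) fun t ht => SS_le hb (by linarith)
  have iB := hdom (BB b) (BB_cont hb).measurable fun t ht => BB_le hb ht.le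
  set w : ℝ → ℂ := fun t => ((SS b t : ℝ) : ℂ) * (t : ℂ) ^ (-(s + 1)) -
    s * (((BB b t : ℝ) : ℂ) * (t : ℂ) ^ (-(s + 1))) with hw
  have iw : IntegrableOn w (Ioi 1) := iS.sub (iB.const_mul s)
  have hfin : ∀ X : ℝ, 1 ≤ X → ∫ t in (1:ℝ)..X, w t = ((BB b X : ℝ) : ℂ) * (X : ℂ) ^ (-s) := by
    intro X hX
    have hmem : ∀ t ∈ uIcc 1 X, (0:ℝ) < t := fun t ht => by
      rw [uIcc_of_le hX] at ht
      linarith [ht.1]
    have hv : ∀ t : ℝ, 0 < t → HasDerivAt (fun t : ℝ => (t : ℂ) ^ (-s)) (-s * (t : ℂ) ^ (-(s + 1))) t := by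
      intro t ht
      have h1 := hasDerivAt_ofReal_cpow_const (x := t) (r := -s) ht.ne' (neg_ne_zero.2 hs0)
      rw [show -(s + 1) = -s - 1 by ring]
      exact h1
    have hp := intervalIntegral.integral_deriv_mul_eq_sub_of_hasDeriv_right (a := 1) (b := X)
      (u := fun t => ((BB b t : ℝ) : ℂ)) (u' := fun t => ((SS b t / t : ℝ) : ℂ))
      (v := fun t : ℝ => (t : ℂ) ^ (-s)) (v' := fun t : ℝ => -s * (t : ℂ) ^ (-(s + 1)))
      ((continuous_ofReal.comp (BB_cont hb)).continuousOn)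
      (fun t ht => (hv t (hmem t ht)).continuousAt.continuousWithinAt)
      (fun t ht => (BB_deriv hb (hmem t ⟨ht.1.le, ht.2.le⟩)).ofReal_comp)
      (fun t ht => (hv t (hmem t ⟨ht.1.le, ht.2.le⟩)).hasDerivWithinAt)
      ⟨(q_int hb 1 X).1.ofReal, (q_int hb 1 X).2.ofReal⟩
      (by
        refine ContinuousOn.intervalIntegrable fun t ht => ?_
        exact continuousWithinAt_const.mul
          (Complex.continuousAt_ofReal_cpow_const t _ (Or.inr (hmem t ht).ne')).continuousWithinAt)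
    have e1 : BB b 1 = 0 := by unfold BB; simp
    rw [e1] at hp
    simp only [ofReal_zero, zero_mul, sub_zero] at hp
    rw [← hp]
    refine intervalIntegral.integral_congr fun t ht => ?_
    have ht0 := hmem t ht
    have ht0' : (t : ℂ) ≠ 0 := by exact_mod_cast ht0.ne'
    simp only [hw]
    have e2 : (t : ℂ) ^ (-(s + 1)) = (t : ℂ) ^ (-s) / t := by
      rw [show -(s + 1) = -s - 1 by ring, Complex.cpow_sub _ _ ht0', Complex.cpow_one]
    rw [e2]
    push_cast
    field_simp
    ring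
  have hlim : Tendsto (fun X : ℝ => ∫ t in (1:ℝ)..X, w t) atTop (𝓝 (∫ t in Ioi (1:ℝ), w t)) :=
    intervalIntegral_tendsto_integral_Ioi 1 iw tendsto_id
  have hzero : Tendsto (fun X : ℝ => ∫ t in (1:ℝ)..X, w t) atTop (𝓝 0) := by
    have h1 : Tendsto (fun X : ℝ => X ^ (-(s.re - 1))) atTop (𝓝 0) :=
      tendsto_rpow_neg_atTop (by linarith)
    refine squeeze_zero_norm' ?_ h1
    filter_upwards [eventually_gt_atTop 1] with X hX
    rw [hfin X hX.le, norm_mul, Complex.norm_real, Real.norm_eq_abs,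
      Complex.norm_cpow_eq_rpow_re_of_pos (by linarith)]
    have h2 := BB_le hb hX.le
    calc |BB b X| * X ^ (-s).re ≤ X * X ^ (-s).re := mul_le_mul_of_nonneg_right h2 (by positivity)
      _ = X ^ (-(s.re - 1)) := by
        nth_rewrite 1 [← Real.rpow_one X]
        rw [← Real.rpow_add (by linarith)]
        congr 1
        simp
        ring
  have h0 := tendsto_nhds_unique hlim hzero
  rw [hw, integral_sub iS (iB.const_mul s), integral_const_mul] at h0
  exact sub_eq_zero.1 h0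

/-- **continuation from the mean square** -/
theorem cont_L2 {b : ArithmeticFunction ℝ} (hb : ∀ n, |b n| ≤ 1) {δ K : ℝ} (h0 : 0 ≤ δ)
    (hS : ∀ X : ℝ, 1 ≤ X → II b X ≤ K * X ^ δ) :
    ∃ F : ℂ → ℂ, (∀ s : ℂ, (1 + δ) / 2 < s.re → DifferentiableAt ℂ F s) ∧
      ∀ s : ℂ, 1 < s.re → F s = LSeries (fun n => cA b n) s := by
  have hK : 0 ≤ K := by
    have h2 := hS 1 le_rfl
    have h3 := II_nonneg b le_rfl
    rw [Real.one_rpow, mul_one] at h2
    linarith
  set θ : ℝ := (1 + δ) / 2 with hθ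
  have hθ0 : 0 ≤ θ := by linarith
  set g : ℝ → ℂ := indicator (Ioi 1) (fun t => ((BB b t : ℝ) : ℂ)) with hg
  have hBc : Continuous (fun t => ((BB b t : ℝ) : ℂ)) := continuous_ofReal.comp (BB_cont hb)
  have hgm : Measurable g := hBc.measurable.indicator measurableSet_Ioi
  have hgb : ∀ t : ℝ, ‖g t‖ ≤ (K + 1) / 2 * |t| ^ θ := by
    intro t
    by_cases ht : 1 < t
    · rw [hg, indicator_of_mem (show t ∈ Ioi 1 from ht), abs_of_pos (by linarith), Complex.norm_real]
      exact BB_le2 hb hS ht.le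
    · rw [hg, indicator_of_notMem (show t ∉ Ioi 1 from ht), norm_zero]
      positivity
  have hloc : LocallyIntegrableOn g (Ioi 0) := by
    have h1 : LocallyIntegrable (fun t : ℝ => (K + 1) / 2 * |t| ^ θ) := by
      refine Continuous.locallyIntegrable ?_
      exact continuous_const.mul (continuous_abs.rpow_const fun t => Or.inr hθ0)
    refine (h1.mono hgm.aestronglyMeasurable (ae_of_all _ fun t => ?_)).locallyIntegrableOn _
    refine (hgb t).trans (le_abs_self _)
  have htop : g =O[atTop] (fun t : ℝ => t ^ (-(-θ))) := by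
    rw [Asymptotics.isBigO_iff]
    refine ⟨(K + 1) / 2, ?_⟩
    filter_upwards [eventually_gt_atTop 1] with t ht
    have := hgb t
    rw [abs_of_pos (by linarith)] at this
    rw [neg_neg, Real.norm_of_nonneg (by positivity)]
    exact this
  have hbot : ∀ b : ℝ, g =O[𝓝[>] 0] (fun t : ℝ => t ^ (-b)) := by
    intro b
    rw [Asymptotics.isBigO_iff]
    refine ⟨0, ?_⟩
    have : Iio (1:ℝ) ∈ 𝓝[>] (0:ℝ) := mem_nhdsWithin_of_mem_nhds (Iio_mem_nhds one_pos)
    filter_upwards [this] with t ht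
    have ht1 : t < 1 := ht
    have ht' : t ∉ Ioi (1:ℝ) := fun h => absurd (lt_trans (show 1 < t from h) ht1) (lt_irrefl _)
    rw [hg, indicator_of_notMem ht']
    simp
  refine ⟨fun s => s * (s * mellin g (-s)), fun s hs => ?_, fun s hs => ?_⟩
  · have h1 : DifferentiableAt ℂ (mellin g) (-s) :=
      mellin_differentiableAt_of_isBigO_rpow (a := -θ) (b := (-s).re - 1) hloc htop
        (by simp only [neg_re]; linarith) (hbot _) (by linarith)
    have h2 : DifferentiableAt ℂ (fun s => mellin g (-s)) s :=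
      DifferentiableAt.comp (g := mellin g) (f := fun s : ℂ => -s) s h1 differentiableAt_id.neg
    exact differentiableAt_id.mul (differentiableAt_id.mul h2)
  · have hO : (fun n : ℕ => ∑ k ∈ Finset.Icc 1 n, cA b k) =O[atTop] fun n : ℕ => (n : ℝ) ^ (1:ℝ) := by
      rw [Asymptotics.isBigO_iff]
      refine ⟨1, ?_⟩
      filter_upwards [eventually_ge_atTop 1] with n hn
      have h3 := SS_le hb (Nat.cast_nonneg n)
      unfold SS at h3
      rw [Nat.floor_natCast] at h3
      have e : ∑ k ∈ Finset.Icc 1 n, cA b k = ((∑ k ∈ Finset.Icc 1 n, b k : ℝ) : ℂ) := by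
        push_cast
        rfl
      rw [e, Complex.norm_real, Real.norm_eq_abs, one_mul, Real.rpow_one,
        Real.norm_of_nonneg (Nat.cast_nonneg n)]
      exact h3
    rw [LSeries_eq_mul_integral (fun n => cA b n) zero_le_one hs (cA_summable b hb s hs) hO]
    have e3 : ∀ t : ℝ, ∑ k ∈ Finset.Icc 1 ⌊t⌋₊, cA b k = ((SS b t : ℝ) : ℂ) := by
      intro t
      unfold SS
      push_cast
      rfl
    simp_rw [e3]
    rw [int_parts hb hs]
    unfold mellin
    rw [hg]
    have e : ∀ t : ℝ, (t : ℂ) ^ (-s - 1) • indicator (Ioi 1) (fun t => ((BB b t : ℝ) : ℂ)) t =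
        indicator (Ioi 1) (fun t : ℝ => (t : ℂ) ^ (-s - 1) • ((BB b t : ℝ) : ℂ)) t := by
      intro t
      by_cases ht : t ∈ Ioi 1
      · rw [indicator_of_mem ht, indicator_of_mem ht]
      · rw [indicator_of_notMem ht, indicator_of_notMem ht, smul_zero]
    simp_rw [e]
    rw [setIntegral_indicator measurableSet_Ioi]
    have e2 : Ioi (0:ℝ) ∩ Ioi 1 = Ioi 1 := by
      ext t
      simp only [mem_inter_iff, mem_Ioi]
      constructor
      · rintro ⟨_, h⟩; exact h
      · intro h; exact ⟨by linarith, h⟩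
    rw [e2]
    congr 2
    refine setIntegral_congr_fun measurableSet_Ioi fun t _ => ?_
    simp only [smul_eq_mul]
    rw [mul_comm, show -s - 1 = -(s + 1) by ring]

end Pool.Agent.Q32.Tw
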