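import Pool.Agent.Q32.Tw.B
import Pool.Agent.H313R3.TK.J

set_option autoImplicit false

/-! # Thinned Möbius sums in mean square -/

open Filter Topology Set MeasureTheory Complex
open H353

namespace Pool.Agent.Q32.Tw

theorem mA_le (n : ℕ) : |mA n| ≤ 1 := by
  rw [mA_apply]
  exact_mod_cast ArithmeticFunction.abs_moebius_le_one

/-- a mean-square saving for the Mertens function gives a zero-free half plane -/
theorem zf_of_II (δ K : ℝ) (h0 : 0 ≤ δ) (h1 : δ < 1)
    (hM : ∀ X : ℝ, 1 ≤ X → II mA X ≤ K * X ^ δ) :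
    ∀ s : ℂ, (1 + δ) / 2 < s.re → riemannZeta s ≠ 0 := by
  obtain ⟨F, hF, hFe⟩ := cont_L2 mA_le h0 hM
  have hcA : (fun n => cA mA n) = fun n => ((ArithmeticFunction.moebius n : ℤ) : ℂ) := by
    funext n
    rw [cA_apply, mA_apply]
    push_cast
    rfl
  rw [hcA] at hFe
  set U : Set ℂ := {s : ℂ | (1 + δ) / 2 < s.re} with hU
  have hUo : IsOpen U := isOpen_lt continuous_const Complex.continuous_re
  have hUc : IsPreconnected U := (convex_halfSpace_re_gt ((1 + δ) / 2)).isPreconnected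
  have hA1 : AnalyticOnNhd ℂ (fun s => FF s * F s) U := by
    have : DifferentiableOn ℂ (fun s => FF s * F s) U := fun s hs =>
      ((ZU.J_g2b.FF_diff s).mul (hF s hs)).differentiableWithinAt
    exact this.analyticOnNhd hUo
  have hA2 : AnalyticOnNhd ℂ (fun s : ℂ => s - 1) U := by
    have : DifferentiableOn ℂ (fun s : ℂ => s - 1) U := (differentiable_id.sub_const 1).differentiableOn
    exact this.analyticOnNhd hUo
  have hEq : EqOn (fun s => FF s * F s) (fun s : ℂ => s - 1) U := by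
    refine hA1.eqOn_of_preconnected_of_eventuallyEq hA2 hUc (z₀ := 2)
      (by show (1 + δ) / 2 < (2:ℂ).re; simp; linarith) ?_
    have : {s : ℂ | 1 < s.re} ∈ 𝓝 (2:ℂ) :=
      (isOpen_lt continuous_const Complex.continuous_re).mem_nhds (by simp)
    filter_upwards [this] with s hs
    have hs' : 1 < s.re := hs
    have hs1 : s ≠ 1 := by
      rintro rfl
      simp at hs'
    rw [show FF s = (s - 1) * riemannZeta s from ZU.J_g2b.FF_ne hs1, hFe s hs', mul_assoc]
    have h2 := ArithmeticFunction.LSeries_zeta_mul_Lseries_moebius hs'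
    rw [ArithmeticFunction.LSeries_zeta_eq_riemannZeta hs'] at h2
    have h3 : LSeries (fun n => ((ArithmeticFunction.moebius n : ℤ) : ℂ)) s =
      LSeries (fun n => (ArithmeticFunction.moebius n : ℂ)) s := rfl
    rw [h3, h2, mul_one]
  intro s hs hz
  have hs1 : s ≠ 1 := by
    rintro rfl
    exact riemannZeta_one_ne_zero hz
  have h2 := hEq hs
  simp only at h2
  rw [show FF s = (s - 1) * riemannZeta s from ZU.J_g2b.FF_ne hs1, hz, mul_zero, zero_mul] at h2
  exact sub_ne_zero.2 hs1 h2.symm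

variable {g : ℕ →*₀ ℝ}

theorem need2 (hg : ∀ p : ℕ, p.Prime → 0 ≤ g p ∧ g p ≤ 1) (δ K : ℝ) (h0 : 0 ≤ δ) (h1 : δ < 1)
    (hS : ∀ X : ℝ, 1 ≤ X → II (fA g) X ≤ K * X ^ δ) :
    (∃ σ < (1:ℝ), Summable (fun p : Nat.Primes => g p / ((p : ℕ) : ℝ) ^ σ)) ∨
      ∀ θ : ℝ, (1 + δ) / 2 < θ → Summable (fun p : Nat.Primes => (1 - g p) / ((p : ℕ) : ℝ) ^ θ) ∧
        (∀ s : ℂ, θ < s.re → riemannZeta s ≠ 0) := by
  have hK : 0 ≤ K := by
    have h2 := hS 1 le_rfl
    have h3 := II_nonneg (fA g) le_rfl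
    rw [Real.one_rpow, mul_one] at h2
    linarith
  set κ : ℝ := (1 + δ) / 2 with hκ
  have hκ0 : 0 ≤ κ := by linarith
  have hκ1 : κ < 1 := by linarith
  obtain ⟨F, hF, hFe⟩ := cont_L2 (f_le_one hg) h0 hS
  set U : Set ℂ := {s : ℂ | κ < s.re} with hU
  have hUo : IsOpen U := isOpen_lt continuous_const Complex.continuous_re
  have h1U : (1:ℂ) ∈ U := by show κ < (1:ℂ).re; simpa using hκ1
  have hne1 : ∀ s : ℂ, 1 < s.re → s ≠ 1 := by
    rintro s hs rfl
    simp at hs
  by_cases hF1 : F 1 = 0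
  · right
    have hD1 : DifferentiableOn ℂ (dslope F 1) U :=
      (Complex.differentiableOn_dslope (hUo.mem_nhds h1U)).2 fun s hs => (hF s hs).differentiableWithinAt
    have hHd : DifferentiableOn ℂ (fun s => FF s * dslope F 1 s) U := by
      have : DifferentiableOn ℂ FF U := ZU.J_g2b.FF_diff.differentiableOn
      exact this.mul hD1
    have hHe : ∀ s : ℂ, 1 < s.re → FF s * dslope F 1 s = LSeries (fun n => (uA g n : ℂ)) s := by
      intro s hs
      have h2 := (U_eq hg s hs).2
      rw [show (fun n => (uA g n : ℂ)) = fun n => cA (uA g) n from rfl, h2, ← hFe s hs,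
        dslope_of_ne _ (hne1 s hs), slope_def_field, hF1,
        show FF s = (s - 1) * riemannZeta s from ZU.J_g2b.FF_ne (hne1 s hs)]
      have hs1 : s - 1 ≠ 0 := sub_ne_zero.2 (hne1 s hs)
      field_simp
      ring
    have hL := landau_half (uA g) (u_nonneg hg) _ κ hκ1 hHd (fun s hs => (U_eq hg s hs).1) hHe
    intro θ hθ
    have hsu : Summable (fun n : ℕ => uA g n / (n : ℝ) ^ θ) :=
      summ_of_LS (uA g) (u_nonneg hg) θ (hL θ hθ)
    refine ⟨?_, ?_⟩
    · have h5 := hsu.comp_injective Nat.Primes.coe_nat_injective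
      refine h5.congr fun p => ?_
      have := uA_pow g p p.2 0
      rw [zero_add, pow_one] at this
      simp only [Function.comp_apply, this]
    · by_cases hθ1 : θ < 1
      · have h3 : Summable (fun n : ℕ => |vA g n| / (n : ℝ) ^ θ) :=
          Summable.of_nonneg_of_le (fun n => by positivity)
            (fun n => div_le_div_of_nonneg_right (v_le_u hg n) (by positivity)) hsu
        have h4 : ∀ X : ℝ, 1 ≤ X → II mA X ≤
            (∑' n : ℕ, |vA g n| / (n : ℝ) ^ θ) ^ 2 * K * X ^ (2 * θ - 1) := by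
          intro X hX
          rw [m_eq]
          rw [mul_assoc]
          refine conv_ms (vA g) (fA g) θ _ X hX h3 fun n hn hnX => ?_
          have hn0 : (0:ℝ) < n := by exact_mod_cast hn
          have h5 : 1 ≤ X / n := by rw [one_le_div hn0]; exact hnX
          refine (hS _ h5).trans ?_
          rw [mul_assoc]
          refine mul_le_mul_of_nonneg_left ?_ hK
          refine (Real.rpow_le_rpow_of_exponent_le h5 (show δ ≤ 2 * θ - 1 by linarith)).trans ?_
          rw [Real.div_rpow (by linarith) hn0.le, div_eq_mul_inv, ← Real.rpow_neg hn0.le,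
            show -(2 * θ - 1) = 1 - 2 * θ by ring]
        have h6 := zf_of_II (2 * θ - 1) _ (by linarith) (by linarith) h4
        intro s hs
        exact h6 s (by linarith)
      · intro s hs
        exact riemannZeta_ne_zero_of_one_le_re (by linarith)
  · left
    have hcF : ContinuousAt F 1 := (hF 1 h1U).continuousAt
    have hev : ∀ᶠ s in 𝓝 (1:ℂ), F s ≠ 0 ∧ s ∈ U := (hcF.eventually_ne hF1).and (hUo.mem_nhds h1U)
    obtain ⟨r, hr, hball⟩ := Metric.eventually_nhds_iff.1 hev
    set τ : ℝ := min (1 / 2) (r ^ 2 / 4) with hτ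
    have hτ0 : 0 < τ := lt_min (by norm_num) (by positivity)
    have hτ1 : τ ≤ 1 / 2 := min_le_left _ _
    have hτ2 : τ ≤ r ^ 2 / 4 := min_le_right _ _
    have hcase : ∀ z ∈ Metric.ball (2:ℂ) (2 - (1 - τ)), F z ≠ 0 ∧ z ∈ U := by
      intro z hz
      by_cases h1 : 1 < z.re
      · refine ⟨?_, lt_trans hκ1 h1⟩
        intro h0
        have := F_G hg z h1
        rw [← hFe z h1, h0, zero_mul] at this
        exact zero_ne_one this
      · push Not at h1
        apply hball
        rw [Metric.mem_ball, dist_eq_norm] at hz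
        rw [dist_eq_norm]
        have h2 : ‖z - 2‖ ^ 2 < (1 + τ) ^ 2 := by
          have := norm_nonneg (z - 2)
          have h3 : ‖z - 2‖ < 1 + τ := by linarith
          nlinarith
        rw [Complex.sq_norm, Complex.normSq_apply] at h2
        simp only [sub_re, sub_im, re_ofNat, im_ofNat, sub_zero] at h2
        have h4 : ‖z - 1‖ ^ 2 < r ^ 2 := by
          rw [Complex.sq_norm, Complex.normSq_apply]
          simp only [sub_re, sub_im, one_re, one_im, sub_zero]
          nlinarith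
        exact lt_of_pow_lt_pow_left₀ 2 hr.le h4
    have hL := landau_ball (gA g) (fun n => (g_nonneg hg n).1) (fun s => (F s)⁻¹) (1 - τ) (by linarith)
      (fun z hz => ((hF z (hcase z hz).2).inv (hcase z hz).1).differentiableWithinAt)
      (fun s hs => cA_summable (gA g) (fun n => by
        rw [gA_apply, abs_of_nonneg (g_nonneg hg n).1]; exact (g_nonneg hg n).2) s hs)
      (fun s hs => by
        have := F_G hg s hs
        rw [← hFe s hs] at this
        exact (eq_inv_of_mul_eq_one_right this).symm)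
    refine ⟨1 - τ / 2, by linarith, ?_⟩
    have h5 := (summ_of_LS (gA g) (fun n => (g_nonneg hg n).1) (1 - τ / 2) (hL _ (by linarith))).comp_injective
      Nat.Primes.coe_nat_injective
    exact h5.congr fun p => rfl

/-- comparison of the mean squares -/
theorem compare (hg : ∀ p : ℕ, p.Prime → 0 ≤ g p ∧ g p ≤ 1)
    (hs : Summable (fun p : Nat.Primes => (1 - g p) / ((p : ℕ) : ℝ) ^ (1 / 2 : ℝ))) :
    ∃ C : ℝ, 0 < C ∧ ∀ X : ℝ, 1 ≤ X → II (fA g) X ≤ C * II mA X ∧ II mA X ≤ C * II (fA g) X := by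
  have hu := summ_u hg (1 / 2) (by norm_num) hs
  have hv : Summable (fun n : ℕ => |vA g n| / (n : ℝ) ^ (1 / 2 : ℝ)) :=
    Summable.of_nonneg_of_le (fun n => by positivity)
      (fun n => div_le_div_of_nonneg_right (v_le_u hg n) (by positivity)) hu
  have hu' : Summable (fun n : ℕ => |uA g n| / (n : ℝ) ^ (1 / 2 : ℝ)) := by
    simp_rw [abs_of_nonneg (u_nonneg hg _)]
    exact hu
  set A : ℝ := (∑' n : ℕ, |uA g n| / (n : ℝ) ^ (1 / 2 : ℝ)) ^ 2 with hA
  set B : ℝ := (∑' n : ℕ, |vA g n| / (n : ℝ) ^ (1 / 2 : ℝ)) ^ 2 with hB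
  have hA0 : 0 ≤ A := sq_nonneg _
  have hB0 : 0 ≤ B := sq_nonneg _
  have key : ∀ (a b : ArithmeticFunction ℝ),
      Summable (fun n : ℕ => |a n| / (n : ℝ) ^ (1 / 2 : ℝ)) → ∀ X : ℝ, 1 ≤ X →
      II (a * b) X ≤ (∑' n : ℕ, |a n| / (n : ℝ) ^ (1 / 2 : ℝ)) ^ 2 * II b X := by
    intro a b ha X hX
    refine conv_ms a b (1 / 2) _ X hX ha fun n hn hnX => ?_
    have hn0 : (0:ℝ) < n := by exact_mod_cast hn
    have hn1 : (1:ℝ) ≤ n := by exact_mod_cast hn
    have h5 : 1 ≤ X / n := by rw [one_le_div hn0]; exact hnX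
    have h6 : X / n ≤ X := div_le_self (by linarith) hn1
    rw [show 1 - 2 * (1 / 2 : ℝ) = 0 by ring, Real.rpow_zero, mul_one]
    exact II_mono b h5 h6
  refine ⟨A + B + 1, by positivity, fun X hX => ⟨?_, ?_⟩⟩
  · have h1 := key (uA g) mA hu' X hX
    rw [← f_eq] at h1
    have h2 := II_nonneg mA hX
    refine h1.trans (mul_le_mul_of_nonneg_right ?_ h2)
    linarith
  · have h1 := key (vA g) (fA g) hv X hX
    rw [← m_eq] at h1
    have h2 := II_nonneg (fA g) hX
    refine h1.trans (mul_le_mul_of_nonneg_right ?_ h2)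
    linarith

end Pool.Agent.Q32.Tw
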